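import Pool.Agent.K6.H17.EX.Main

/-!
# Exponentially many knots are not seen by the Vassiliev invariants of an order proportional to the number of crossings

Oriented knots are given by sliced diagrams (starting library, `Pool.Agent.H835R2.Knot.Defs`): `Word` (lists of
births, deaths and crossings `pos i`, `neg i`), `IsKnot`, `Isotopic` (planar isotopies and the Reidemeister moves),
`IsInvariant v` (`v` is constant on isotopic knot diagrams), `DegreeLE n v` (`v` is of order at most `n`: all
alternating sums over the switches of `n + 1` crossings of a knot diagram vanish), `crossings D` (the number of the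
crossings of the diagram).  No new definitions are used.

Construction and proof.  Let `Y` be the following tangle on two strands `c`, `b`: `b` makes a kink, whose finger is
hooked to itself `m - 1` times by a tangle with five crossings (see `LinearOrder`), and at the end to the strand `c`;
then a full twist of `c` and `b` is undone.  `Y` has `5 m` crossings, and invariants of order at most `m` do not see
the difference of `Y` and two parallel strands.  A word `W` in the two braids `σ₁²`, `σ₂⁻²` with three strands is put
below `Y`, and its inverse above, and the ends are closed by two maxima and one minimum; without `Y` this is a trivial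
arc, which is inserted in the diagram `D`.  At the square root `i` of `-1` the Jones polynomial divided by the one of
`D` is `1 - 4 ^ m (1 - 2 y (x + 2 j y))`, where `(x, y)` is the first row of the product of the matrices
`(1 0; 2 1)`, `(1 2; 0 1)` given by the word, and `j = 0` or `1` if a further full twist is put at the bottom.  The
words with `2 k + 1` letters which begin with `σ₂⁻²` have `2 ^ (2 k)` different rows `(x, y)` (the matrices generate a
free monoid), and the two numbers for `j = 0, 1` determine the row; so one of the two families has at least `2 ^ k`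
different values.
-/

set_option autoImplicit false

namespace Pool.Agent.Results.MP_5f6b43_gt.ExponentiallyMany

open Pool.Agent.H835R2.Knot Pool.Agent.K6.H17.EX

/-- **Exponentially many knots are not seen by invariants of small order.**

(1) Let `D` be a knot diagram, `m ≥ 1` and `k ≥ 0`.  There are `2 ^ k` knots with at most `8 k + 5 m + 6` crossings more
than `D`, on which all invariants of order at most `m`, with values in any abelian group, have the same value as on
`D`, and which are nevertheless pairwise different, even pairwise separated by invariants with rational values of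
order at most `8 (|D| + 8 k + 7 m + 8)`, where `|D|` is the length of `D` (the number of its crossings, maxima and
minima).

(2) So for all `c`, `d ≥ 1` with `crossings D + 5 d + 6 ≤ c` there are at least `2 ^ ⌊(c - crossings D - 5 d - 6) / 8⌋`
pairwise non-isotopic knots with at most `c` crossings which invariants of order at most `d` do not separate from `D`
(for instance the unknot): exponentially many in `c` even if `d` grows like `a c`, for every `a < 1 / 5`. -/
theorem result :
    (∀ (D : Word) (k m : ℕ), IsKnot D → 1 ≤ m → ∃ E : Fin (2 ^ k) → Word,
      (∀ i, IsKnot (E i) ∧ crossings (E i) ≤ crossings D + (8 * k + 5 * m + 6) ∧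
        ∀ (A : Type) [AddCommGroup A] (v : Word → A), IsInvariant v → DegreeLE m v →
          v (E i) = v D) ∧
      ∀ i j, i ≠ j → ∃ u : Word → ℚ, IsInvariant u ∧
        DegreeLE (8 * (D.length + (8 * k + 7 * m + 8))) u ∧ u (E i) ≠ u (E j)) ∧
    (∀ (D : Word) (c d : ℕ), IsKnot D → 1 ≤ d → crossings D + 5 * d + 6 ≤ c →
      ∃ E : Fin (2 ^ ((c - crossings D - 5 * d - 6) / 8)) → Word,
        (∀ i, IsKnot (E i) ∧ crossings (E i) ≤ c ∧
          ∀ (A : Type) [AddCommGroup A] (v : Word → A), IsInvariant v → DegreeLE d v →
            v (E i) = v D) ∧
        ∀ i j, i ≠ j → ¬ Isotopic (E i) (E j)) := by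
  have key : ∀ (D : Word) (k m : ℕ), IsKnot D → 1 ≤ m → ∃ E : Fin (2 ^ k) → Word,
      (∀ i, IsKnot (E i) ∧ crossings (E i) ≤ crossings D + (8 * k + 5 * m + 6) ∧
        ∀ (A : Type) [AddCommGroup A] (v : Word → A), IsInvariant v → DegreeLE m v →
          v (E i) = v D) ∧
      ∀ i j, i ≠ j → ∃ u : Word → ℚ, IsInvariant u ∧
        DegreeLE (8 * (D.length + (8 * k + 7 * m + 8))) u ∧ u (E i) ≠ u (E j) := by
    intro D k m hD hm
    obtain ⟨n, rfl⟩ : ∃ n, m = n + 1 := ⟨m - 1, by omega⟩
    obtain ⟨E, h1, h2⟩ := fam hD k n
    refine ⟨E, fun i => ⟨(h1 i).1, ?_, (h1 i).2.2⟩, fun i j hij => ?_⟩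
    · have := (h1 i).2.1
      omega
    · obtain ⟨u, u1, u2, u3⟩ := h2 i j hij
      refine ⟨u, u1, ?_, u3⟩
      have e : 8 * (D.length + (8 * k + 7 * (n + 1) + 8)) = 8 * (D.length + (8 * k + 7 * n + 15)) := by
        ring
      rw [e]
      exact u2
  refine ⟨key, fun D c d hD hd hc => ?_⟩
  obtain ⟨E, h1, h2⟩ := key D ((c - crossings D - 5 * d - 6) / 8) d hD hd
  refine ⟨E, fun i => ⟨(h1 i).1, ?_, (h1 i).2.2⟩, fun i j hij h => ?_⟩
  · have := (h1 i).2.1
    omega
  · obtain ⟨u, u1, -, u3⟩ := h2 i j hij
    exact u3 (u1 _ _ (h1 i).1 h)

end Pool.Agent.Results.MP_5f6b43_gt.ExponentiallyMany
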