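import Pool.Agent.K6.H17.RB.Seq

/-!
# Knots with `5 m - 2` crossings which are not seen by the Vassiliev invariants of order `m`

Oriented knots are given by sliced diagrams (starting library, `Pool.Agent.H835R2.Knot.Defs`): `Word` (lists of
births, deaths and crossings `pos i`, `neg i`), `IsKnot`, `Isotopic` (planar isotopies and the Reidemeister moves),
`IsInvariant v` (`v` is constant on isotopic knot diagrams), `DegreeLE n v` (`v` is of order at most `n`: all
alternating sums over the switches of `n + 1` crossings of a knot diagram vanish), `crossings D` (the number of the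
crossings of the diagram), `crossingSet D` (their places), `switchAt T D` (the crossings at the places in `T` are
switched), `circle` (the unknot).  No new definitions are used.

Construction and proof.  Let `D` be a knot diagram; near one of its maxima two strands run downwards, the closing
strand `c` and the base strand `b`.  A finger of the closing strand is laid over `b` such that its two strands `u`, `l`
are on the two sides of `b`, and is hooked to the closing strand at the top (`iT`, one crossing).  The piece `tT`,
with five crossings, replaces a finger by a new one which is hooked to the old one; it is repeated `n` times.  At the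
end the last finger is hooked to the base strand (`fT`, two crossings).  If one of the `n + 2` pieces is changed by
switching some of its crossings (`iZ`, `tZ`, `fZ`), then the whole tower can be pulled out, so that invariants of order
at most `n + 1` do not see it; switching one crossing of `fT` gives back `D`.  All these isotopies are checked by
computation.  The coefficient of `X ^ (n + 2)` of the Jones polynomial at `q = 1 + X`, an invariant of order `n + 2`,
is computed by linear algebra: to first order in `X` the difference of `tT` and `tZ` maps the difference of `fT` and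
`fZ` to `-4 X` times itself, and the coefficient is changed by `24 (-4) ^ n`.
-/

set_option autoImplicit false

namespace Pool.Agent.Results.MP_5f6b43_gt.LinearOrder

open Pool.Agent.H835R2.Knot Pool.Agent.K6.H17.RB Pool.Agent.K6.H17.LC

/-- **The order of the Vassiliev invariants which are necessary to detect a knot grows at least linearly with the
number of the crossings.**

(1) For every `m ≥ 1` there is an invariant `u` with rational values, of order at most `m + 1`, such that every knot
diagram `D` is the first of a sequence of knot diagrams `E 0 = D, E 1, E 2, …` with the following properties: `E k`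
has `k (5 m - 2)` crossings more than `D`, all invariants of order at most `m`, with values in any abelian group, have
the same value on `E k` and on `D`, `u` has the value `u D + k` on `E k` (so these knots are pairwise different), and
one of the crossings of `E (k + 1)` is such that after its switch one has a diagram of the knot `E k`.

In particular, for `D = circle` and `k = 1`: there is a knot with `5 m - 2` crossings and unknotting number one which
is separated from the unknot by an invariant of order `m + 1`, but by no invariant of order `m`.

(2) Consequently, if the invariants of order at most `d`, `d ≥ 1`, separate a knot `D` (for instance the unknot) from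
all other knots with at most `c` crossings, then `c < crossings D + 5 d - 2`. -/
theorem result :
    (∀ m : ℕ, 1 ≤ m → ∃ u : Word → ℚ, IsInvariant u ∧ DegreeLE (m + 1) u ∧
      ∀ D : Word, IsKnot D → ∃ E : ℕ → Word, E 0 = D ∧ ∀ k : ℕ,
        IsKnot (E k) ∧ crossings (E k) = crossings D + k * (5 * m - 2) ∧
        (∀ (A : Type) [AddCommGroup A] (v : Word → A), IsInvariant v → DegreeLE m v →
          v (E k) = v D) ∧
        u (E k) = u D + k ∧
        ∃ j ∈ crossingSet (E (k + 1)), Isotopic (switchAt {j} (E (k + 1))) (E k)) ∧
    (∀ (D : Word) (c d : ℕ), IsKnot D → 1 ≤ d →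
      (∀ D' : Word, IsKnot D' → crossings D' ≤ c → ¬ Isotopic D' D →
        ∃ (A : Type) (_ : AddCommGroup A) (v : Word → A),
          IsInvariant v ∧ DegreeLE d v ∧ v D' ≠ v D) →
      c + 2 < crossings D + 5 * d) := by
  have key : ∀ m : ℕ, 1 ≤ m → ∃ u : Word → ℚ, IsInvariant u ∧ DegreeLE (m + 1) u ∧
      ∀ D : Word, IsKnot D → ∃ E : ℕ → Word, E 0 = D ∧ ∀ k : ℕ,
        IsKnot (E k) ∧ crossings (E k) = crossings D + k * (5 * m - 2) ∧
        (∀ (A : Type) [AddCommGroup A] (v : Word → A), IsInvariant v → DegreeLE m v →
          v (E k) = v D) ∧
        u (E k) = u D + k ∧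
        ∃ j ∈ crossingSet (E (k + 1)), Isotopic (switchAt {j} (E (k + 1))) (E k) := by
    intro m hm
    obtain ⟨n, rfl⟩ : ∃ n, m = n + 1 := ⟨m - 1, by omega⟩
    have hc : (24 * (-4) ^ n : ℚ) ≠ 0 := mul_ne_zero (by norm_num) (pow_ne_zero _ (by norm_num))
    refine ⟨fun D => vn (n + 2) D / (24 * (-4) ^ n), fun D E h1 h2 => ?_, fun D hD S hS hc => ?_,
      fun D hD => ?_⟩
    · show vn (n + 2) D / _ = vn (n + 2) E / _
      rw [vn_inv (n + 2) D E h1 h2]
    · have h := vn_deg (n + 2) D hD S hS hc
      have e : ∀ T ∈ S.powerset, (-1 : ℤ) ^ T.card • (vn (n + 2) (switchAt T D) / (24 * (-4) ^ n)) =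
          ((-1 : ℤ) ^ T.card • vn (n + 2) (switchAt T D)) / (24 * (-4) ^ n) := by
        intro T _
        rw [zsmul_eq_mul, zsmul_eq_mul, mul_div_assoc]
      rw [Finset.sum_congr rfl e, ← Finset.sum_div, h, zero_div]
    · obtain ⟨E, h0, hE⟩ := fam n hD
      refine ⟨E, h0, fun k => ?_⟩
      obtain ⟨h1, h2, h3, h4, h5⟩ := hE k
      refine ⟨h1, ?_, h3, ?_, h5⟩
      · rw [h2]
        congr 2
      · show vn (n + 2) (E k) / _ = vn (n + 2) D / _ + k
        rw [h4]
        field_simp
  refine ⟨key, fun D c d hD hd hcd => ?_⟩
  obtain ⟨u, u1, u2, hu⟩ := key d hd
  obtain ⟨E, h0, hE⟩ := hu D hD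
  obtain ⟨h1, h2, h3, h4, -⟩ := hE 1
  by_contra hcon
  have hle : crossings (E 1) ≤ c := by rw [h2]; omega
  have hne : ¬ Isotopic (E 1) D := by
    intro h
    have h5 := u1 _ _ h1 h
    rw [h4] at h5
    push_cast at h5
    linarith
  obtain ⟨A, _, v, v1, v2, v3⟩ := hcd (E 1) h1 hle hne
  exact v3 (h3 A v v1 v2)

end Pool.Agent.Results.MP_5f6b43_gt.LinearOrder
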