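import Pool.Agent.K6.H17.HO.Ind
import Pool.Agent.K6.H17.HO.LO
import Pool.Agent.K6.H17.HO.ALG
import Pool.Agent.K6.H17.HO.AVG
import Pool.Agent.K6.H17.HO.CHB
import Pool.Agent.K6.H17.HO.CHI
import Pool.Agent.K6.H17.HO.CAT
import Pool.Agent.K6.H17.HO.COL
import Pool.Agent.K6.H17.HO.GAD
import Pool.Agent.K6.H17.HO.KNO
import Pool.Agent.K6.H17.HO.MIX

/-!
# Vassiliev invariants of higher order and random braids

Oriented knots are given by sliced diagrams (starting library, `Pool.Agent.H835R2.Knot.Defs`): `Word` (lists of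
births, deaths and crossings `pos i`, `neg i`), `IsKnot`, `IsInvariant v` (`v` is constant on isotopic knot diagrams),
`DegreeLE d v` (`v` is of order at most `d`: all alternating sums over the switches of `d + 1` crossings of a knot
diagram vanish).  `Separated d D E` (starting library, `Pool.Agent.Y466.FT.Fam`): some Vassiliev invariant with
rational values, of order at most `d`, has different values on `D` and `E`.

`Pool.Agent.K6.H17.HO.Stm2`, `Stm3`: `Lett m` (the letters `σ_i^{±1}` of the braid group with `m` strands),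
`toB w` (the word `w : Fin n → Lett m` as a list), `cl m u` (the diagram of the closure of the braid word `u`:
`m` nested maxima, the crossings of `u`, and `m` nested minima).

Proof.  Let `X ^ k` be the first power in the power series of the Jones polynomial at `q = 1 + X`, an invariant of
order `k`.  There are words `a` in the letters `σ_1^{±2}, σ_2^{±2}` (iterated commutators) whose operators in the
Temperley-Lieb algebra are `1 + κ X ^ (2 r + 2) (U_1 U_2 - U_2 U_1) + ⋯` with `κ ≠ 0`; let `b` be the word with the same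
places and trivial braid.  If the closure of `u a v` is a knot, then exchanging `a` and `b` does not change the
coefficients of order `≤ 2 r + 1`, and changes the coefficient of order `2 r + 2` by
`± κ (χ(u σ_1 σ_2 v) - χ(u σ_2 σ_1 v)) ≠ 0`, where `χ` is the value at `X = 0`, up to a sign the number of the 2-colourings
of the link.  Given the coefficients of order `≤ 2 r`, the probability of a given coefficient of order
`2 r + 2` is therefore at most `C / (n + 1)^(1/2)` by the theorem of Littlewood-Offord and Erdős, applied to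
the windows of the word which are equal to `a` or `b`.
-/

set_option autoImplicit false

namespace Pool.Agent.Results.MP_5f6b43_gt.RandomBraidsHigherOrder

open Finset Pool.Agent.K6.H17.HO
open Pool.Agent.H835R2.Knot (Word IsKnot)
open Pool.Agent.Y466.FT (Separated)

open Classical in
/-- **Vassiliev invariants of order `2 r` separate random closed braids from a given knot, up to a
probability of the order `n^(-r/2)`.**

Let `m ≥ 3` and `r` be given.  There is a constant `C` such that for every `n` and every diagram `X`: among the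
words of length `n` in the letters `σ_i^{±1}` of the braid group with `m` strands whose closure is a knot, the
proportion of those whose closure is not separated from `X` by Vassiliev invariants of order at most `2 r` is at most
`C / (n + 1)^(r/2)`. -/
theorem result : ∀ m : ℕ, 3 ≤ m → ∀ r : ℕ, ∃ C : ℝ, ∀ (n : ℕ) (X : Word),
    (#{w : Fin n → Lett m | IsKnot (cl m (toB w)) ∧ ¬ Separated (2 * r) (cl m (toB w)) X} : ℝ) ≤
      C / ((n : ℝ) + 1) ^ ((r : ℝ) / 2) * #{w : Fin n → Lett m | IsKnot (cl m (toB w))} := by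
  intro m hm r
  obtain ⟨C, hC0, hC⟩ := bound (t_AVG t_CH t_BIN) t_LO t_COL t_ALG t_CHI t_CAT t_GAD hm r
  obtain ⟨c, hc0, hc⟩ := t_MIX m
  refine ⟨C / c, fun n X => ?_⟩
  have e : ((n : ℝ) + 1) ^ ((r : ℝ) / 2) = Real.sqrt ((n : ℝ) + 1) ^ r := by
    rw [Real.sqrt_eq_rpow, ← Real.rpow_natCast, ← Real.rpow_mul (by positivity)]
    congr 1
    ring
  rw [e]
  have hp : 0 < Real.sqrt ((n : ℝ) + 1) ^ r := pow_pos (Real.sqrt_pos.2 (by positivity)) r
  by_cases hk : ∃ w : Fin n → Lett m, IsKnot (cl m (toB w))
  · obtain ⟨w₀, hw₀⟩ := hk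
    have h1 := hc n ⟨w₀, (t_KNO m _ (toB_valid w₀)).1 hw₀⟩
    have h2 : #{w : Fin n → Lett m | #(Fx (pf m (toB w))) = 2} = #{w : Fin n → Lett m | IsKnot (cl m (toB w))} := by
      congr 1
      ext w
      rw [mem_filter, mem_filter, t_KNO m _ (toB_valid w)]
    have h3 := hC n [] (by intro l hl; exact absurd hl List.not_mem_nil)
      (fun k => Pool.Agent.K6.H17.LC.vn k X)
    have h4 : #{w : Fin n → Lett m | IsKnot (cl m (toB w)) ∧ ¬ Separated (2 * r) (cl m (toB w)) X} ≤
        #{w : Fin n → Lett m | Jp m (fun k => Pool.Agent.K6.H17.LC.vn k X) r (toB w ++ [])} := by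
      refine card_le_card fun w hw => ?_
      rw [mem_filter] at hw ⊢
      refine ⟨mem_univ _, ?_⟩
      rw [List.append_nil]
      refine ⟨hw.2.1, fun j hj => ?_⟩
      by_contra hne
      exact hw.2.2 ⟨_, Pool.Agent.K6.H17.LC.vn_inv j,
        Pool.Agent.Y466.FT.DegreeLE.mono hj (Pool.Agent.K6.H17.LC.vn_deg j), hne⟩
    have h5 : (Fintype.card (Lett m) : ℝ) = ((2 * (m - 1) : ℕ) : ℝ) := by
      rw [card_Lett]
    rw [h5] at h3
    have h6 : (#{w : Fin n → Lett m | IsKnot (cl m (toB w)) ∧ ¬ Separated (2 * r) (cl m (toB w)) X} : ℝ) ≤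
        C * ((2 * (m - 1) : ℕ) : ℝ) ^ n / Real.sqrt ((n : ℝ) + 1) ^ r :=
      le_trans (by exact_mod_cast h4) h3
    refine h6.trans ?_
    have h7 : ((2 * (m - 1) : ℕ) : ℝ) ^ n ≤ (#{w : Fin n → Lett m | IsKnot (cl m (toB w))} : ℝ) / c := by
      rw [le_div_iff₀ hc0, mul_comm]
      rw [← h2]
      exact h1
    calc C * ((2 * (m - 1) : ℕ) : ℝ) ^ n / Real.sqrt ((n : ℝ) + 1) ^ r
        ≤ C * ((#{w : Fin n → Lett m | IsKnot (cl m (toB w))} : ℝ) / c) / Real.sqrt ((n : ℝ) + 1) ^ r := by
          gcongr
      _ = C / c / Real.sqrt ((n : ℝ) + 1) ^ r * #{w : Fin n → Lett m | IsKnot (cl m (toB w))} := by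
          ring
  · have h0 : #{w : Fin n → Lett m | IsKnot (cl m (toB w))} = 0 := by
      rw [card_eq_zero, filter_eq_empty_iff]
      exact fun w _ hw => hk ⟨w, hw⟩
    have h1 : #{w : Fin n → Lett m | IsKnot (cl m (toB w)) ∧ ¬ Separated (2 * r) (cl m (toB w)) X} = 0 := by
      rw [card_eq_zero, filter_eq_empty_iff]
      exact fun w _ hw => hk ⟨w, hw.1⟩
    rw [h0, h1]
    simp

end Pool.Agent.Results.MP_5f6b43_gt.RandomBraidsHigherOrder
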