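import Pool.Agent.K6.H17.CL.Count
import Pool.Agent.W639.RB.Knots

/-!
# Vassiliev invariants of order two and random braids

Diagrams (starting library `Pool.Agent.H891R2.Jones.Diagram`): `Diagram P` (oriented link diagrams with
marked points `P`, planar or not), `Diagram.IsClosed` (the pieces fit together to closed oriented curves),
`Outer m` (the part of an oriented diagram outside a box through which `m` strands run, `O.up a` is the
direction of the strand which enters the box at the place `a` of its lower side), `Outer.close` (fills the box
with vertical strands).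

`Pool.Agent.W639.RB.Defs` (starting library): `Letter m = Bool × Fin (m - 1)` (the letters `σ_i^{±1}` of the
braid group on `m` strands), `diagram O w` (the diagram obtained by drawing the word `w : Fin n → Letter m` in
the box of `O`), `braidClosure m` (the outside of the box for the usual closure of a braid);
`Pool.Agent.W639.RB.Knots`: `IsKnot w` (the permutation of `w` has a single cycle, i.e. the closure of the
braid word `w` is a knot).  `Pool.Agent.W705.JR.Vas`: `dia O w` is the diagram `diagram O w` as an element of `Dia`.

`Pool.Agent.K6.H17.CL.Defs`: `word i s` (the word with the places `i` and the signs `s`),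
`crossings i a b` (the letters at which the strands `a` and `b` of the box cross, the strands being named by the
places at which they enter the box at its lower side), `parallel O i` (the letters at which the two
crossing strands have the same direction).

Vassiliev invariants (starting library `Pool.Agent.H832R3.VJ.Defs`): `Dia` (an oriented diagram with
the finite set of its marked points), `Separated d X Y` (some integer valued Vassiliev invariant of
oriented links of order at most `d` has different values on `X` and `Y`).
-/

set_option autoImplicit false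

namespace Pool.Agent.Results.MP_5f6b43_gt.RandomBraidsOrderTwo

open Finset Pool.Agent.H891R2.Jones Pool.Agent.H832R3.VJ Pool.Agent.W639.RB Pool.Agent.K6.H17.CL
open Pool.Agent.W705.JR (dia)

theorem isKnot_iff {m n : ℕ} (w : Fin n → Letter m) :
    IsKnot w ↔ ∀ a b : Fin m, (pre (fun j => (w j).2) n).SameCycle a b := by
  unfold IsKnot
  rw [← permL_toL w, ← permL_lst (fun j => (w j).2) (fun j => (w j).1)]
  rfl

open Classical in
theorem general {m n : ℕ} (O : Outer m) (S : (Fin n → Fin (m - 1)) → Prop) (k : ℕ)
    (hS : ∀ i, S i → (∃ s, (diagram O (word i s)).IsClosed) ∧ k ≤ #(parallel O i)) (X : Dia) :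
    3 * k * #{w : Fin n → Letter m | S (fun j => (w j).2) ∧ ¬ Separated 2 (dia O w) X} ^ 2 ≤
      4 * (m * (m - 1)) * #{w : Fin n → Letter m | S (fun j => (w j).2)} ^ 2 ∧
    ∀ (ε : ℝ) (q : Fin n → Letter m → ℝ), 0 ≤ ε → 2 * ε ≤ 1 → (∀ j x, 0 ≤ q j x) →
      (∀ j b t, ε * (q j (false, t) + q j (true, t)) ≤ q j (b, t)) →
      3 * ((m * (m - 1) : ℕ) + 2 * ε * k) * (∑ w : Fin n → Letter m, (∏ j, q j (w j)) *
        (if S (fun j => (w j).2) ∧ ¬ Separated 2 (dia O w) X then 1 else 0)) ^ 2 ≤
      16 * (m * (m - 1) : ℕ) * (∑ w : Fin n → Letter m, (∏ j, q j (w j)) *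
        (if S (fun j => (w j).2) then 1 else 0)) ^ 2 := by
  constructor
  · refine count_words S (fun w => ¬ Separated 2 (dia O w) X) (3 * k) (4 * (m * (m - 1))) ?_
    intro i hi
    obtain ⟨⟨s₀, hc⟩, hk⟩ := hS i hi
    exact (Nat.mul_le_mul_right _ (Nat.mul_le_mul_left _ hk)).trans (word_bound O i s₀ hc X)
  · intro ε q h0 h2 hq hε
    refine prob_words S (fun w => ¬ Separated 2 (dia O w) X) (3 * ((m * (m - 1) : ℕ) + 2 * ε * k))
      (16 * (m * (m - 1) : ℕ)) ε (by positivity) (by positivity) h2 q hq hε ?_
    intro i hi p hp1 hp2 hp3
    obtain ⟨⟨s₀, hc⟩, hk⟩ := hS i hi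
    refine le_trans (mul_le_mul_of_nonneg_right ?_ (sq_nonneg _))
      (word_prod O i s₀ hc X p ε h0 hp2 hp3)
    have hk' : (k : ℝ) ≤ #(parallel O i) := by exact_mod_cast hk
    have : 2 * ε * (k : ℝ) ≤ 2 * ε * #(parallel O i) := mul_le_mul_of_nonneg_left hk' (by positivity)
    linarith

open Classical in
/-- (1) Let `O` be the outside of a box with `m` strands of arbitrary directions, and `i` the places of the
letters of a braid word of length `n` such that the diagram with the word `i` is closed for some signs.  Then it is
closed for all signs, and for every `X`, if two strands `a`, `b` of the same direction cross `k` times, at most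
`2 C(k, ⌊k/2⌋) 2^(n-k)` of the `2^n` sign sequences give a diagram which is not separated from `X` by Vassiliev
invariants of order at most two; if at `k > 0` letters the crossing strands have the same direction, this is
a proportion of at most `(4 m (m-1) / (3k))^(1/2)`.  If the signs are independent and both values have a
probability `≥ ε` (not necessarily the same probabilities for all letters), the probability is at most
`(16 m (m-1) / (3 (m (m-1) + 2 ε k)))^(1/2)`.

(2) Let `S` be a set of sequences of places for which these diagrams are closed and have at least `k` letters at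
which the crossing strands have the same direction.  Then the same bounds hold for random words with
places in `S` (conditional probabilities), for uniformly distributed words as well as for words with
independent letters with arbitrary distributions `q j`, such that given its place the sign of each letter has
both values with a probability `≥ ε`.

(3) In particular for every link or knot `X`, for random words of length `n` in the letters `σ_i^{±1}` of the braid
group on `m` strands, the closure of the word is not separated from `X` by Vassiliev invariants of order at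
most two with probability at most `(4 m (m-1) / (3n))^(1/2) ≤ 1.16 m / n^(1/2)`, and the same holds for the words
whose closure is a knot. -/
theorem result :
    (∀ (m n : ℕ) (O : Outer m) (i : Fin n → Fin (m - 1)), (∃ s, (diagram O (word i s)).IsClosed) →
      (∀ s, (diagram O (word i s)).IsClosed) ∧ ∀ X : Dia,
        (∀ a b : Fin m, O.up a = O.up b →
          #{s : Fin n → Bool | ¬ Separated 2 (dia O (word i s)) X} ≤
            2 * (#(crossings i a b)).choose (#(crossings i a b) / 2) * 2 ^ (n - #(crossings i a b))) ∧
        3 * #(parallel O i) * #{s : Fin n → Bool | ¬ Separated 2 (dia O (word i s)) X} ^ 2 ≤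
          4 * (m * (m - 1)) * 4 ^ n ∧
        ∀ (ε : ℝ) (p : Fin n → Bool → ℝ), 0 ≤ ε → (∀ j b, ε ≤ p j b) → (∀ j, p j false + p j true = 1) →
          3 * ((m * (m - 1) : ℕ) + 2 * ε * #(parallel O i)) *
            (∑ s : Fin n → Bool, (∏ j, p j (s j)) *
              (if ¬ Separated 2 (dia O (word i s)) X then 1 else 0)) ^ 2 ≤ 16 * (m * (m - 1) : ℕ)) ∧
    (∀ (m n : ℕ) (O : Outer m) (S : (Fin n → Fin (m - 1)) → Prop) (k : ℕ),
      (∀ i, S i → (∃ s, (diagram O (word i s)).IsClosed) ∧ k ≤ #(parallel O i)) → ∀ X : Dia,
        3 * k * #{w : Fin n → Letter m | S (fun j => (w j).2) ∧ ¬ Separated 2 (dia O w) X} ^ 2 ≤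
          4 * (m * (m - 1)) * #{w : Fin n → Letter m | S (fun j => (w j).2)} ^ 2 ∧
        ∀ (ε : ℝ) (q : Fin n → Letter m → ℝ), 0 ≤ ε → 2 * ε ≤ 1 → (∀ j x, 0 ≤ q j x) →
          (∀ j b t, ε * (q j (false, t) + q j (true, t)) ≤ q j (b, t)) →
          3 * ((m * (m - 1) : ℕ) + 2 * ε * k) * (∑ w : Fin n → Letter m, (∏ j, q j (w j)) *
            (if S (fun j => (w j).2) ∧ ¬ Separated 2 (dia O w) X then 1 else 0)) ^ 2 ≤
          16 * (m * (m - 1) : ℕ) * (∑ w : Fin n → Letter m, (∏ j, q j (w j)) *
            (if S (fun j => (w j).2) then 1 else 0)) ^ 2) ∧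
    (∀ (m n : ℕ) (X : Dia),
      3 * n * #{w : Fin n → Letter m | ¬ Separated 2 (dia (braidClosure m) w) X} ^ 2 ≤
        4 * (m * (m - 1)) * ((2 * (m - 1)) ^ n) ^ 2 ∧
      3 * n * #{w : Fin n → Letter m | IsKnot w ∧ ¬ Separated 2 (dia (braidClosure m) w) X} ^ 2 ≤
        4 * (m * (m - 1)) * #{w : Fin n → Letter m | IsKnot w} ^ 2) := by
  refine ⟨fun m n O i h => ?_, fun m n O S k hS X => general O S k hS X, fun m n X => ?_⟩
  · obtain ⟨s₀, hc⟩ := h
    exact ⟨all_closed O i s₀ hc, fun X => ⟨fun a b hab => word_clique O i s₀ hc a b hab X,
      word_bound O i s₀ hc X, fun ε p h0 hp hs => word_prod O i s₀ hc X p ε h0 hp hs⟩⟩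
  · have hk : ∀ i : Fin n → Fin (m - 1), (∃ s, (diagram (braidClosure m) (word i s)).IsClosed) ∧
        n ≤ #(parallel (braidClosure m) i) := fun i =>
      ⟨⟨fun _ => true, closure_word m _⟩, (parallel_closure i).ge⟩
    constructor
    · have h := (general (braidClosure m) (fun _ => True) n (fun i _ => hk i) X).1
      simp only [true_and, Finset.filter_true, Finset.card_univ] at h
      rwa [Fintype.card_fun, Fintype.card_prod, Fintype.card_bool, Fintype.card_fin,
        Fintype.card_fin] at h
    · have h := (general (braidClosure m) (fun i => ∀ a b : Fin m, (pre i n).SameCycle a b) n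
        (fun i _ => hk i) X).1
      simp only [← isKnot_iff] at h
      exact h

end Pool.Agent.Results.MP_5f6b43_gt.RandomBraidsOrderTwo
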